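import Mathlib

/-!
# ETH core: minimal transversals of the hash hypergraph (abstract form)

`blk v` is the block of the vertex `v`, `cons i u v` says that `u`, `v` agree under the `i`-th hash
function, `good u v` says that `u`, `v` really agree. A set `T` is a transversal if for every block `i`
it contains a vertex of block `i` or an `i`-inconsistent pair.
-/

set_option autoImplicit false

namespace Pool.Agent.Helper25.ETH

variable {ι V : Type*}

/-- `T` meets block `i` or contains an `i`-inconsistent pair. -/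
def Hits (blk : V → ι) (cons : ι → V → V → Prop) (i : ι) (T : Finset V) : Prop :=
  (∃ v ∈ T, blk v = i) ∨ ∃ u ∈ T, ∃ v ∈ T, ¬ cons i u v

/-- The transversals. -/
def IsTr (blk : V → ι) (cons : ι → V → V → Prop) (T : Finset V) : Prop :=
  ∀ i, Hits blk cons i T

theorem Hits.mono {blk : V → ι} {cons : ι → V → V → Prop} {i : ι} {S T : Finset V} (hST : S ⊆ T)
    (h : Hits blk cons i S) : Hits blk cons i T := by
  rcases h with ⟨v, hv, e⟩ | ⟨u, hu, v, hv, e⟩
  · exact Or.inl ⟨v, hST hv, e⟩
  · exact Or.inr ⟨u, hST hu, v, hST hv, e⟩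

theorem Hits.small [DecidableEq V] {blk : V → ι} {cons : ι → V → V → Prop} {i : ι} {T : Finset V}
    (h : Hits blk cons i T) : ∃ W ⊆ T, W.card ≤ 2 ∧ Hits blk cons i W := by
  rcases h with ⟨v, hv, e⟩ | ⟨u, hu, v, hv, e⟩
  · exact ⟨{v}, by simpa using hv, by simp, Or.inl ⟨v, by simp, e⟩⟩
  · refine ⟨{u, v}, ?_, Finset.card_le_two, Or.inr ⟨u, by simp, v, by simp, e⟩⟩
    intro w hw
    rw [Finset.mem_insert, Finset.mem_singleton] at hw
    rcases hw with rfl | rfl
    · exact hu
    · exact hv

/-- A minimal transversal is small or it is a set of pairwise agreeing vertices meeting all blocks. -/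
theorem core_small [Fintype ι] [DecidableEq V] (blk : V → ι) (cons : ι → V → V → Prop)
    (good : V → V → Prop) (c : ℕ)
    (h1 : ∀ u v, good u v → ∀ i, cons i u v)
    (h2 : ∀ u v, ¬ good u v → ∀ P : Finset ι, (∀ i ∈ P, cons i u v) → P.card ≤ c)
    (T : Finset V) (hT : Minimal (IsTr blk cons) T) :
    T.card ≤ 2 * c + 2 ∨ ((∀ u ∈ T, ∀ v ∈ T, good u v) ∧ ∀ i, ∃ v ∈ T, blk v = i) := by
  classical
  by_cases hg : ∀ u ∈ T, ∀ v ∈ T, good u v
  · right
    refine ⟨hg, fun i => ?_⟩
    rcases hT.1 i with h | ⟨u, hu, v, hv, e⟩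
    · exact h
    · exact absurd (h1 u v (hg u hu v hv) i) e
  · left
    push Not at hg
    obtain ⟨u, hu, v, hv, huv⟩ := hg
    set P : Finset ι := Finset.univ.filter (fun i => cons i u v) with hP
    have hPc : P.card ≤ c := h2 u v huv P fun i hi => (Finset.mem_filter.1 hi).2
    choose W hWT hWc hWh using fun i => (hT.1 i).small
    set S : Finset V := {u, v} ∪ P.biUnion W with hS
    have hST : S ⊆ T := by
      rw [hS]
      refine Finset.union_subset ?_ (Finset.biUnion_subset.2 fun i _ => hWT i)
      intro w hw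
      rw [Finset.mem_insert, Finset.mem_singleton] at hw
      rcases hw with rfl | rfl
      · exact hu
      · exact hv
    have hStr : IsTr blk cons S := by
      intro i
      by_cases hi : cons i u v
      · have hiP : i ∈ P := Finset.mem_filter.2 ⟨Finset.mem_univ i, hi⟩
        refine (hWh i).mono ?_
        exact (Finset.subset_biUnion_of_mem W hiP).trans Finset.subset_union_right
      · exact Or.inr ⟨u, by simp [hS], v, by simp [hS], hi⟩
    have hTS : T ⊆ S := hT.2 hStr hST
    calc T.card ≤ S.card := Finset.card_le_card hTS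
      _ ≤ ({u, v} : Finset V).card + (P.biUnion W).card := Finset.card_union_le _ _
      _ ≤ 2 + P.card * 2 := by
        refine add_le_add Finset.card_le_two (Finset.card_biUnion_le_card_mul _ _ _ ?_)
        exact fun i _ => hWc i
      _ ≤ 2 * c + 2 := by omega

/-- Pairwise agreeing vertices meeting all blocks form a minimal transversal, and it has as many
elements as there are blocks. -/
theorem core_big [Fintype ι] [DecidableEq V] (blk : V → ι) (cons : ι → V → V → Prop)
    (good : V → V → Prop)
    (h1 : ∀ u v, good u v → ∀ i, cons i u v)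
    (h3 : ∀ u v, good u v → blk u = blk v → u = v)
    (T : Finset V) (hg : ∀ u ∈ T, ∀ v ∈ T, good u v) (hb : ∀ i, ∃ v ∈ T, blk v = i) :
    Minimal (IsTr blk cons) T ∧ T.card = Fintype.card ι := by
  classical
  refine ⟨⟨fun i => Or.inl (hb i), ?_⟩, ?_⟩
  · intro S hS hST v hv
    rcases hS (blk v) with ⟨w, hw, e⟩ | ⟨u, hu, w, hw, e⟩
    · rw [← h3 w v (hg w (hST hw) v hv) e]
      exact hw
    · exact absurd (h1 u w (hg u (hST hu) w (hST hw)) _) e
  · rw [← Finset.card_univ]
    refine Finset.card_bij (fun v _ => blk v) (fun v _ => Finset.mem_univ _) ?_ ?_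
    · intro u hu v hv e
      exact h3 u v (hg u hu v hv) e
    · intro i _
      obtain ⟨v, hv, e⟩ := hb i
      exact ⟨v, hv, e⟩

end Pool.Agent.Helper25.ETH
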