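import Mathlib
import Pool.Agent.Helper25.ETH.Core
import Pool.Agent.Helper50.ETH.Defs

/-!
# ETH: the concrete reduction is an instance of the core lemma
-/

set_option autoImplicit false

namespace Pool.Agent.Helper25.ETH

open Pool.Agent.Helper50.ETH Pool.Agent.Helper36.PT

/-! ### Digits -/

theorem exists_digits (q : ℕ) (d : ℕ → ℕ) : ∀ D : ℕ, (∀ j < D, d j < q) →
    ∃ h < q ^ D, ∀ j < D, h / q ^ j % q = d j := by
  intro D
  induction D with
  | zero => exact fun _ => ⟨0, by simp, fun j hj => absurd hj (Nat.not_lt_zero j)⟩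
  | succ D ih =>
    intro hd
    obtain ⟨h, hh, hdig⟩ := ih fun j hj => hd j (by omega)
    have hq : 0 < q := lt_of_le_of_lt (Nat.zero_le _) (hd D (by omega))
    refine ⟨h + d D * q ^ D, ?_, fun j hj => ?_⟩
    · have h1 : d D + 1 ≤ q := hd D (by omega)
      calc h + d D * q ^ D < q ^ D + d D * q ^ D := by omega
        _ = (d D + 1) * q ^ D := by ring
        _ ≤ q * q ^ D := Nat.mul_le_mul_right _ h1
        _ = q ^ (D + 1) := by ring
    · rcases Nat.lt_succ_iff_lt_or_eq.1 hj with hj | rfl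
      · have e : h + d D * q ^ D = h + q ^ j * (d D * q ^ (D - j)) := by
          have : q ^ D = q ^ j * q ^ (D - j) := by rw [← pow_add]; congr 1; omega
          rw [this]; ring
        rw [e, Nat.add_mul_div_left _ _ (pow_pos hq j)]
        have e2 : d D * q ^ (D - j) = q * (d D * q ^ (D - j - 1)) := by
          have : q ^ (D - j) = q * q ^ (D - j - 1) := by rw [← pow_succ']; congr 1; omega
          rw [this]; ring
        rw [e2, Nat.add_mul_mod_self_left]
        exact hdig j hj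
      · rw [mul_comm, Nat.add_mul_div_left _ _ (pow_pos hq j), Nat.div_eq_of_lt hh, zero_add,
          Nat.mod_eq_of_lt (hd j (by omega))]

theorem mod_cube (B v : ℕ) :
    v % B ^ 3 = v / B ^ 0 % B + B * (v / B ^ 1 % B) + B ^ 2 * (v / B ^ 2 % B) := by
  have e3 : B ^ 3 = B * (B * B) := by ring
  rw [e3, Nat.mod_mul, Nat.mod_mul, pow_zero, Nat.div_one, pow_one, Nat.div_div_eq_div_mul,
    ← pow_two]
  ring

variable {n : ℕ}

theorem two_pow_mul (g t : ℕ) : 2 ^ (t * g) = (2 ^ g) ^ t := by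
  rw [← pow_mul, mul_comm]

theorem part_eq (v t : ℕ) : part n v t = v / (2 ^ gg n) ^ t % 2 ^ gg n := by
  unfold part
  rw [two_pow_mul]

theorem part_lt (v t : ℕ) : part n v t < 2 ^ gg n := Nat.mod_lt _ (by positivity)

theorem blk_lt {v : ℕ} (hv : v < nV n) : blk n v < mm n := by
  unfold blk
  unfold nV at hv
  exact Nat.div_lt_of_lt_mul (by rwa [mul_comm] at hv)

/-- A vertex is determined by its block and its parts. -/
theorem vertex_ext {u v : ℕ} (hb : blk n u = blk n v)
    (hp : ∀ t < 3, part n u t = part n v t) : u = v := by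
  have h : u % 2 ^ (3 * gg n) = v % 2 ^ (3 * gg n) := by
    rw [two_pow_mul, mod_cube, mod_cube]
    have := hp 0 (by omega)
    have := hp 1 (by omega)
    have := hp 2 (by omega)
    simp only [part_eq] at *
    simp_all
  rw [← Nat.div_add_mod u (2 ^ (3 * gg n)), ← Nat.div_add_mod v (2 ^ (3 * gg n)), h]
  unfold blk at hb
  rw [hb]

/-! ### The relations -/

/-- The block of a vertex. -/
noncomputable def blkF (v : Fin (nV n)) : Fin (mm n) := ⟨blk n v, blk_lt v.2⟩

/-- Consistency under the `i`-th hash function. -/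
def consR (cl : List (List (Option Bool))) (i : Fin (mm n)) (u v : Fin (nV n)) : Prop :=
  Good n cl u ∧ Good n cl v ∧ ∀ t < 3, ∀ t' < 3, grp n (blk n u) t = grp n (blk n v) t' →
    hash n i (part n u t) = hash n i (part n v t')

/-- Real consistency. -/
def goodR (cl : List (List (Option Bool))) (u v : Fin (nV n)) : Prop :=
  Good n cl u ∧ Good n cl v ∧ ∀ t < 3, ∀ t' < 3, grp n (blk n u) t = grp n (blk n v) t' →
    part n u t = part n v t'

theorem good_cons (cl : List (List (Option Bool))) (u v : Fin (nV n)) (h : goodR cl u v)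
    (i : Fin (mm n)) : consR cl i u v :=
  ⟨h.1, h.2.1, fun t ht t' ht' e => by rw [h.2.2 t ht t' ht' e]⟩

theorem good_inj (cl : List (List (Option Bool))) (u v : Fin (nV n)) (h : goodR cl u v)
    (hb : blkF u = blkF v) : u = v := by
  have hb' : blk n u = blk n v := congrArg Fin.val hb
  apply Fin.ext
  exact vertex_ext hb' fun t ht => h.2.2 t ht t ht (by rw [hb'])

theorem not_good_card
    (hcoll : ∀ a b : ℕ, a < 2 ^ gg n → b < 2 ^ gg n → a ≠ b → ∀ P : Finset ℕ,
      (∀ i ∈ P, i < mm n ∧ hash n i a = hash n i b) → P.card ≤ kap n - 1)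
    (cl : List (List (Option Bool))) (u v : Fin (nV n)) (h : ¬ goodR cl u v)
    (P : Finset (Fin (mm n))) (hP : ∀ i ∈ P, consR cl i u v) : P.card ≤ kap n - 1 := by
  rcases P.eq_empty_or_nonempty with rfl | ⟨i0, hi0⟩
  · simp
  have h0 := hP i0 hi0
  have h' : ∃ t < 3, ∃ t' < 3, grp n (blk n u) t = grp n (blk n v) t' ∧
      part n u t ≠ part n v t' := by
    by_contra hcon
    push Not at hcon
    exact h ⟨h0.1, h0.2.1, hcon⟩
  obtain ⟨t, ht, t', ht', e, hne⟩ := h'
  have h1 := hcoll _ _ (part_lt (n := n) u t) (part_lt (n := n) v t') hne (P.map Fin.valEmbedding) ?_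
  · rwa [Finset.card_map] at h1
  · intro i hi
    obtain ⟨j, hj, rfl⟩ := Finset.mem_map.1 hi
    exact ⟨j.2, (hP j hj).2.2 t ht t' ht' e⟩

/-! ### The hypergraph -/

open Classical in
/-- The edges as sets of vertices. -/
noncomputable def fam (n : ℕ) (cl : List (List (Option Bool))) : List (Finset (Fin (nV n))) :=
  (List.range (nE n)).map (fun e => Finset.univ.filter
    (fun v : Fin (nV n) => ¬ InS n cl (e / qq n ^ DD n) (e % qq n ^ DD n) v))

theorem fam_rows (cl : List (List (Option Bool))) :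
    edges n cl = (fam n cl).map (fun T => List.ofFn (fun i => decide (i ∈ T))) := by
  classical
  unfold edges fam
  rw [List.map_map]
  refine List.map_congr_left fun e _ => ?_
  unfold rowE
  rw [Function.comp_apply]
  apply List.ext_getElem
  · simp
  · intro i h1 h2
    simp only [List.getElem_map, List.getElem_range, List.getElem_ofFn, Finset.mem_filter,
      Finset.mem_univ, true_and, decide_not]
    congr 1

theorem hits_iff (hq : 0 < qq n) (hD : 0 < DD n) (cl : List (List (Option Bool)))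
    (T : Finset (Fin (nV n))) :
    (∀ e ∈ fam n cl, (T ∩ e).Nonempty) ↔ IsTr blkF (consR cl) T := by
  classical
  constructor
  · intro hT i
    by_contra hnot
    unfold Hits at hnot
    push Not at hnot
    obtain ⟨hb, hc⟩ := hnot
    -- the digits
    let d : ℕ → ℕ := fun j =>
      if h : ∃ p : Fin (nV n) × ℕ, p.1 ∈ T ∧ p.2 < 3 ∧ grp n (blk n p.1) p.2 = j then
        hash n i (part n h.choose.1 h.choose.2) else 0
    have hd : ∀ j < DD n, d j < qq n := by
      intro j _
      simp only [d]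
      split_ifs with h
      · exact Nat.mod_lt _ hq
      · exact hq
    obtain ⟨h, hh, hdig⟩ := exists_digits (qq n) d (DD n) hd
    have hQ : 0 < qq n ^ DD n := pow_pos hq _
    have he : (i : ℕ) * qq n ^ DD n + h < nE n := by
      unfold nE
      calc (i : ℕ) * qq n ^ DD n + h < i * qq n ^ DD n + qq n ^ DD n := by omega
        _ = (i + 1) * qq n ^ DD n := by ring
        _ ≤ mm n * qq n ^ DD n := Nat.mul_le_mul_right _ i.2
    have hmem := hT _ (List.mem_map.2 ⟨_, List.mem_range.2 he, rfl⟩)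
    obtain ⟨v, hv⟩ := hmem
    rw [Finset.mem_inter, Finset.mem_filter] at hv
    obtain ⟨hvT, -, hvS⟩ := hv
    apply hvS
    have e1 : ((i : ℕ) * qq n ^ DD n + h) / qq n ^ DD n = i := by
      rw [mul_comm, Nat.mul_add_div hQ, Nat.div_eq_of_lt hh, add_zero]
    have e2 : ((i : ℕ) * qq n ^ DD n + h) % qq n ^ DD n = h := by
      rw [mul_comm, Nat.mul_add_mod, Nat.mod_eq_of_lt hh]
    rw [e1, e2]
    refine ⟨fun e => hb v hvT (Fin.ext e), (hc v hvT v hvT).1, fun t ht => ?_⟩
    have hj : grp n (blk n v) t < DD n := Nat.mod_lt _ hD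
    have hex : ∃ p : Fin (nV n) × ℕ, p.1 ∈ T ∧ p.2 < 3 ∧
        grp n (blk n p.1) p.2 = grp n (blk n v) t := ⟨(v, t), hvT, ht, rfl⟩
    have hdj := hdig _ hj
    unfold dig
    rw [hdj]
    simp only [d]
    rw [dif_pos hex]
    obtain ⟨g1, g2, g3⟩ := hex.choose_spec
    exact (hc v hvT _ g1).2.2 t ht _ g2 g3.symm
  · intro hT e he
    obtain ⟨e0, he0, rfl⟩ := List.mem_map.1 he
    rw [List.mem_range] at he0
    have hi : e0 / qq n ^ DD n < mm n :=
      Nat.div_lt_of_lt_mul (by unfold nE at he0; rwa [mul_comm] at he0)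
    have key : ∀ v ∈ T, ¬ InS n cl (e0 / qq n ^ DD n) (e0 % qq n ^ DD n) v →
        (T ∩ Finset.univ.filter (fun v : Fin (nV n) =>
          ¬ InS n cl (e0 / qq n ^ DD n) (e0 % qq n ^ DD n) v)).Nonempty := by
      intro v hv hS
      exact ⟨v, Finset.mem_inter.2 ⟨hv, Finset.mem_filter.2 ⟨Finset.mem_univ v, hS⟩⟩⟩
    rcases hT ⟨_, hi⟩ with ⟨v, hv, e⟩ | ⟨u, hu, v, hv, hc⟩
    · exact key v hv fun hS => hS.1 (congrArg Fin.val e)
    · by_cases hu' : InS n cl (e0 / qq n ^ DD n) (e0 % qq n ^ DD n) u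
      · by_cases hv' : InS n cl (e0 / qq n ^ DD n) (e0 % qq n ^ DD n) v
        · exfalso
          apply hc
          refine ⟨hu'.2.1, hv'.2.1, fun t ht t' ht' e => ?_⟩
          change hash n (e0 / qq n ^ DD n) _ = hash n (e0 / qq n ^ DD n) _
          rw [hu'.2.2 t ht, hv'.2.2 t' ht', e]
        · exact key v hv hv'
      · exact key u hu hu'

/-! ### From large transversals to satisfying assignments -/

theorem getD_ofFn (c : Fin n → Option Bool) (x : ℕ) (hx : x < n) :
    (List.ofFn c).getD x none = c ⟨x, hx⟩ := by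
  rw [List.getD_eq_getElem?_getD, List.getElem?_ofFn, dif_pos hx]
  rfl

/-- Few variables lie in three groups. -/
theorem cover_groups {g D : ℕ} (hD : 0 < D) (s : Finset ℕ) (hs : s.card ≤ 3)
    (hlt : ∀ x ∈ s, x / g < D) : ∃ f : ℕ → ℕ, (∀ t, f t < D) ∧ ∀ x ∈ s, ∃ t < 3, f t = x / g := by
  classical
  set l := (s.image (fun x => x / g)).toList with hl
  have hlen : l.length ≤ 3 := by
    rw [hl, Finset.length_toList]
    exact Finset.card_image_le.trans hs
  refine ⟨fun t => l.getD t 0, fun t => ?_, fun x hx => ?_⟩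
  · change l.getD t 0 < D
    by_cases ht : t < l.length
    · rw [List.getD_eq_getElem _ _ ht]
      have h : l[t] ∈ l := List.getElem_mem ht
      have h' : ∀ y ∈ l, y < D := by
        intro y hy
        rw [hl, Finset.mem_toList, Finset.mem_image] at hy
        obtain ⟨x, hx, e⟩ := hy
        rw [← e]
        exact hlt x hx
      exact h' _ h
    · rw [List.getD_eq_default _ _ (by omega)]
      exact hD
  · have hmem : x / g ∈ l := by
      rw [hl, Finset.mem_toList, Finset.mem_image]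
      exact ⟨x, hx, rfl⟩
    obtain ⟨t, ht, e⟩ := List.getElem_of_mem hmem
    refine ⟨t, by omega, ?_⟩
    change l.getD t 0 = x / g
    rw [List.getD_eq_getElem _ _ ht, e]

theorem grp_digits {p : ℕ} {f : ℕ → ℕ} (h : ∀ j < 3, p / DD n ^ j % DD n = f j) (t : ℕ)
    (ht : t < 3) : grp n p t = f t := h t ht

/-- A set of vertices meeting all blocks and pairwise consistent gives a satisfying assignment. -/
theorem sat_of_full (hn : n ≤ DD n * gg n) (hD : 0 < DD n)
    (φ : List (Fin n → Option Bool)) (hφ : Width3 φ) (T : Finset (Fin (nV n)))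
    (hgood : ∀ u ∈ T, ∀ v ∈ T, goodR (φ.map List.ofFn) u v)
    (hb : ∀ i, ∃ v ∈ T, blkF v = i) : Sat φ := by
  classical
  have hgrp : ∀ x < n, x / gg n < DD n := by
    intro x hx
    exact Nat.div_lt_of_lt_mul (by rw [mul_comm] at hn; omega)
  -- for every triple of groups a vertex
  have hblock : ∀ f : ℕ → ℕ, (∀ t, f t < DD n) → ∃ v ∈ T, ∀ t < 3, grp n (blk n v) t = f t := by
    intro f hf
    obtain ⟨p, hp, hdig⟩ := exists_digits (DD n) f 3 fun j _ => hf j
    obtain ⟨v, hv, e⟩ := hb ⟨p, hp⟩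
    refine ⟨v, hv, fun t ht => ?_⟩
    have e' : blk n v = p := congrArg Fin.val e
    rw [e']
    exact hdig t ht
  have hb1 : ∀ j : ℕ, ∃ v : Fin (nV n), j < DD n → v ∈ T ∧ grp n (blk n v) 0 = j := by
    intro j
    by_cases hj : j < DD n
    · obtain ⟨v, hv, h⟩ := hblock (fun _ => j) fun _ => hj
      exact ⟨v, fun _ => ⟨hv, h 0 (by omega)⟩⟩
    · obtain ⟨v, hv, -⟩ := hblock (fun _ => 0) fun _ => hD
      exact ⟨v, fun h => absurd h hj⟩
  choose w hw using hb1
  refine ⟨fun x => bit n (w (x / gg n)) 0 x, fun c hc => ?_⟩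
  -- the groups of the clause
  set s : Finset ℕ := (Finset.univ.filter (fun x : Fin n => c x ≠ none)).map Fin.valEmbedding
    with hs
  have hscard : s.card ≤ 3 := by
    rw [hs, Finset.card_map]
    exact hφ c hc
  have hsn : ∀ x, ∀ hx : x < n, c ⟨x, hx⟩ ≠ none → x ∈ s := by
    intro x hx h
    rw [hs]
    exact Finset.mem_map.2 ⟨⟨x, hx⟩, Finset.mem_filter.2 ⟨Finset.mem_univ _, h⟩, rfl⟩
  obtain ⟨f, hf, hcov⟩ := cover_groups (g := gg n) hD s hscard (by
    intro x hx
    obtain ⟨y, -, rfl⟩ := Finset.mem_map.1 (hs ▸ hx)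
    exact hgrp y y.2)
  obtain ⟨v, hv, hvf⟩ := hblock f hf
  have hG := (hgood v hv v hv).1
  have hnf := hG.2 (List.ofFn c) (List.mem_map.2 ⟨c, hc, rfl⟩)
  unfold Falsified at hnf
  push Not at hnf
  obtain ⟨x, hx, hne, hall⟩ := hnf
  rw [getD_ofFn c x hx] at hne
  obtain ⟨t, ht, e⟩ := hcov x (hsn x hx hne)
  have hgt : grp n (blk n v) t = x / gg n := (hvf t ht).trans e
  have h1 := hall t ht hgt
  rw [getD_ofFn c x hx] at h1
  refine ⟨⟨x, hx⟩, ?_⟩
  have hwx := hw (x / gg n) (hgrp x hx)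
  have hpart : part n v t = part n (w (x / gg n)) 0 :=
    (hgood v hv _ hwx.1).2.2 t ht 0 (by omega) (hgt.trans hwx.2.symm)
  have hbit : bit n v t x = bit n (w (x / gg n)) 0 x := by
    unfold bit
    rw [hpart]
  change c ⟨x, hx⟩ = some (bit n (w (x / gg n)) 0 x)
  rw [← hbit]
  obtain ⟨b, hb'⟩ := Option.ne_none_iff_exists'.1 hne
  rw [hb'] at h1 ⊢
  congr 1
  by_contra hcon
  apply h1
  congr 1
  cases b <;> cases hbb : bit n v t x <;> simp_all

/-! ### From satisfying assignments to large transversals -/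

theorem div_mod_shift (B p u t : ℕ) (hB : 0 < B) (ht : t < 3) :
    (p * B ^ 3 + u) / B ^ t % B = u / B ^ t % B := by
  have e : p * B ^ 3 + u = u + B ^ t * (p * B ^ (3 - t)) := by
    have : B ^ 3 = B ^ t * B ^ (3 - t) := by rw [← pow_add]; congr 1; omega
    rw [this]; ring
  rw [e, Nat.add_mul_div_left _ _ (pow_pos hB t)]
  have e2 : p * B ^ (3 - t) = B * (p * B ^ (3 - t - 1)) := by
    have : B ^ (3 - t) = B * B ^ (3 - t - 1) := by rw [← pow_succ']; congr 1; omega
    rw [this]; ring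
  rw [e2, Nat.add_mul_mod_self_left]

theorem full_of_sat (hg : 0 < gg n) (φ : List (Fin n → Option Bool)) (hS : Sat φ) :
    ∃ T : Finset (Fin (nV n)), (∀ u ∈ T, ∀ v ∈ T, goodR (φ.map List.ofFn) u v) ∧
      ∀ i, ∃ v ∈ T, blkF v = i := by
  classical
  obtain ⟨a, ha⟩ := hS
  -- the numbers of the groups
  have hA : ∀ j : ℕ, ∃ A < 2 ^ gg n, ∀ y < gg n, A / 2 ^ y % 2 =
      if h : j * gg n + y < n then (if a ⟨j * gg n + y, h⟩ = true then 1 else 0) else 0 := by
    intro j
    exact exists_digits 2 (fun y => if h : j * gg n + y < n then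
      (if a ⟨j * gg n + y, h⟩ = true then 1 else 0) else 0) (gg n) (fun y _ => by
        split_ifs <;> omega)
  choose A hA1 hA2 using hA
  have hU : ∀ p : Fin (mm n), ∃ u < (2 ^ gg n) ^ 3, ∀ t < 3,
      u / (2 ^ gg n) ^ t % 2 ^ gg n = A (grp n p t) := by
    intro p
    exact exists_digits (2 ^ gg n) (fun t => A (grp n p t)) 3 fun t _ => hA1 _
  choose U hU1 hU2 using hU
  have hB : 0 < 2 ^ gg n := by positivity
  have hlt : ∀ p : Fin (mm n), (p : ℕ) * (2 ^ gg n) ^ 3 + U p < nV n := by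
    intro p
    unfold nV
    rw [two_pow_mul]
    calc (p : ℕ) * (2 ^ gg n) ^ 3 + U p < (p : ℕ) * (2 ^ gg n) ^ 3 + (2 ^ gg n) ^ 3 := by
          have := hU1 p; omega
      _ = ((p : ℕ) + 1) * (2 ^ gg n) ^ 3 := by ring
      _ ≤ mm n * (2 ^ gg n) ^ 3 := Nat.mul_le_mul_right _ p.2
  let v : Fin (mm n) → Fin (nV n) := fun p => ⟨_, hlt p⟩
  have hvb : ∀ p, blk n (v p) = p := by
    intro p
    change ((p : ℕ) * (2 ^ gg n) ^ 3 + U p) / 2 ^ (3 * gg n) = p
    rw [two_pow_mul, mul_comm, Nat.mul_add_div (pow_pos hB 3), Nat.div_eq_of_lt (hU1 p), add_zero]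
  have hvp : ∀ p, ∀ t < 3, part n (v p) t = A (grp n p t) := by
    intro p t ht
    rw [part_eq]
    change ((p : ℕ) * (2 ^ gg n) ^ 3 + U p) / (2 ^ gg n) ^ t % 2 ^ gg n = _
    rw [div_mod_shift _ _ _ _ hB ht]
    exact hU2 p t ht
  have hGood : ∀ p, Good n (φ.map List.ofFn) (v p) := by
    intro p
    refine ⟨fun t ht t' ht' e => ?_, fun c hc hF => ?_⟩
    · rw [hvp p t ht, hvp p t' ht']
      rw [hvb] at e
      rw [e]
    · obtain ⟨c0, hc0, rfl⟩ := List.mem_map.1 hc
      obtain ⟨x, hx⟩ := ha c0 hc0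
      have h1 : (List.ofFn c0).getD x none = some (a x) := by
        rw [getD_ofFn c0 x x.2]
        exact hx
      obtain ⟨t, ht, hgt, hbt⟩ := hF x x.2 (by rw [h1]; simp)
      rw [h1] at hbt
      rw [hvb] at hgt
      have hy : (x : ℕ) % gg n < gg n := Nat.mod_lt _ hg
      have hxx : (x : ℕ) / gg n * gg n + x % gg n = x := Nat.div_add_mod' _ _
      have h2 := hA2 (x / gg n) (x % gg n) hy
      have hcond : (x : ℕ) / gg n * gg n + x % gg n < n := by rw [hxx]; exact x.2
      rw [dif_pos hcond] at h2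
      have hax : a ⟨(x : ℕ) / gg n * gg n + x % gg n, hcond⟩ = a x := by
        congr 1
        exact Fin.ext hxx
      rw [hax] at h2
      have h3 : bit n (v p) t x = a x := by
        unfold bit
        rw [hvp p t ht, hgt, h2, Bool.eq_iff_iff, dec_eq_true]
        cases a x <;> simp
      rw [h3] at hbt
      have := Option.some.inj hbt
      cases hax' : a x <;> rw [hax'] at this <;> simp at this
  refine ⟨Finset.univ.image v, ?_, fun i => ⟨v i, Finset.mem_image_of_mem v (Finset.mem_univ i),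
    Fin.ext (hvb i)⟩⟩
  intro x hx y hy
  obtain ⟨p, -, rfl⟩ := Finset.mem_image.1 hx
  obtain ⟨r, -, rfl⟩ := Finset.mem_image.1 hy
  refine ⟨hGood p, hGood r, fun t ht t' ht' e => ?_⟩
  rw [hvp p t ht, hvp r t' ht']
  rw [hvb, hvb] at e
  rw [e]

/-! ### The two statements -/

/-- Large minimal transversals exist only if the formula is satisfiable. -/
theorem inst_small
    (hcoll : ∀ a b : ℕ, a < 2 ^ gg n → b < 2 ^ gg n → a ≠ b → ∀ P : Finset ℕ,
      (∀ i ∈ P, i < mm n ∧ hash n i a = hash n i b) → P.card ≤ kap n - 1)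
    (hkap : 0 < kap n) (hn : n ≤ DD n * gg n) (hD : 0 < DD n) (hq : 0 < qq n)
    (φ : List (Fin n → Option Bool)) (hφ : Width3 φ) (T : Finset (Fin (nV n)))
    (hT : Minimal (fun S : Finset (Fin (nV n)) => ∀ e ∈ fam n (φ.map List.ofFn),
      (S ∩ e).Nonempty) T) : T.card ≤ 2 * kap n ∨ Sat φ := by
  have hT' : Minimal (IsTr blkF (consR (φ.map List.ofFn))) T := by
    have e : (fun S : Finset (Fin (nV n)) => ∀ e ∈ fam n (φ.map List.ofFn), (S ∩ e).Nonempty) =
        IsTr blkF (consR (φ.map List.ofFn)) := by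
      funext S
      exact propext (hits_iff hq hD _ S)
    rwa [e] at hT
  rcases core_small blkF (consR (φ.map List.ofFn)) (goodR (φ.map List.ofFn)) (kap n - 1)
    (fun u v h i => good_cons _ u v h i) (fun u v h P hP => not_good_card hcoll _ u v h P hP)
    T hT' with h | ⟨h1, h2⟩
  · left; omega
  · right
    exact sat_of_full hn hD φ hφ T h1 h2

/-- A satisfiable formula gives a minimal transversal with `mm n` elements. -/
theorem inst_big (hg : 0 < gg n) (hD : 0 < DD n) (hq : 0 < qq n)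
    (φ : List (Fin n → Option Bool)) (hS : Sat φ) :
    ∃ T : Finset (Fin (nV n)), Minimal (fun S : Finset (Fin (nV n)) =>
      ∀ e ∈ fam n (φ.map List.ofFn), (S ∩ e).Nonempty) T ∧ T.card = mm n := by
  classical
  obtain ⟨T, h1, h2⟩ := full_of_sat hg φ hS
  obtain ⟨h3, h4⟩ := core_big blkF (consR (φ.map List.ofFn)) (goodR (φ.map List.ofFn))
    (fun u v h i => good_cons _ u v h i) (fun u v h e => good_inj _ u v h e) T h1 h2
  refine ⟨T, ?_, by rw [h4, Fintype.card_fin]⟩
  have e : (fun S : Finset (Fin (nV n)) => ∀ e ∈ fam n (φ.map List.ofFn), (S ∩ e).Nonempty) =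
      IsTr blkF (consR (φ.map List.ofFn)) := by
    funext S
    exact propext (hits_iff hq hD _ S)
  rwa [e]

end Pool.Agent.Helper25.ETH
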