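import Mathlib
import Pool.Agent.Helper25.ETH.Inst
import Pool.Agent.Helper16.ETH.Params
import Pool.Agent.Helper85.ETH.Hash
import Pool.Agent.Helper68.ETH.Word

/-!
# ETH: a formula is satisfiable iff the hypergraph has a minimal transversal with more than
`2 * kap n` elements
-/

set_option autoImplicit false

namespace Pool.Agent.Helper25.ETH

open Pool.Agent.Helper50.ETH Pool.Agent.Helper36.PT

theorem fam_eq_EE (n : ℕ) (cl : List (List (Option Bool))) :
    fam n cl = Pool.Agent.Helper68.ETH.EE n cl := by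
  classical
  unfold fam Pool.Agent.Helper68.ETH.EE
  refine List.map_congr_left fun e _ => ?_
  ext v
  rw [Pool.Agent.Helper68.ETH.mem_edge]
  simp

/-- The reduction is correct. -/
theorem inst_iff (n : ℕ) (φ : List (Fin n → Option Bool)) (hφ : Width3 φ) :
    (∃ T : Finset (Fin (nV n)),
      Minimal (fun S : Finset (Fin (nV n)) =>
        ∀ e ∈ Pool.Agent.Helper68.ETH.EE n (φ.map List.ofFn), (S ∩ e).Nonempty) T ∧
        2 * kap n < T.card) ↔ Sat φ := by
  have hD : 0 < DD n := lt_of_lt_of_le (by norm_num) (Pool.Agent.Helper16.ETH.DD_pos n)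
  have hq : 0 < qq n := Pool.Agent.Helper16.ETH.qq_pos n
  rw [← fam_eq_EE]
  constructor
  · rintro ⟨T, hT, hc⟩
    rcases inst_small (fun a b ha hb hab P hP =>
      Pool.Agent.Helper85.ETH.Hash.hash_coll n a b ha hb hab P hP)
      (Pool.Agent.Helper16.ETH.kap_pos n) (Pool.Agent.Helper16.ETH.le_DD_mul n) hD hq φ hφ T hT
      with h | h
    · omega
    · exact h
  · intro hS
    obtain ⟨T, hT, hc⟩ := inst_big (Pool.Agent.Helper16.ETH.gg_pos n) hD hq φ hS
    exact ⟨T, hT, by rw [hc]; exact Pool.Agent.Helper16.ETH.two_kap_lt n⟩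

end Pool.Agent.Helper25.ETH
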